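import Pool.Agent.Helper57.MCG.Twist

/-!
On the sphere with eight holes there is a Dehn multi-twist `t` and a mapping class `f` such that the
circles `f ^ m (α i)` fill the surface and no element `t ^ j * f` is pseudo-Anosov.
-/

set_option autoImplicit false

open Set Topology
open Pool.Agent.Helper57.MCG

namespace Pool.Agent.Results.MP_d510f5_gt.NoUniformBlock

/-- the two circles of the multi-twist -/
noncomputable def al : Fin 2 → Set S := ![alpha 0, alpha 3]

/-- the multi-twist, as a homeomorphism -/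
noncomputable def T : S ≃ₜ S := T0 * T3

lemma conj_form (j : ℤ) : T ^ j * rot 3 = T0 ^ j * rot 3 * (T0 ^ j)⁻¹ := by
  have h1 : T ^ j = T0 ^ j * T3 ^ j := Commute.mul_zpow commute_T j
  have h2 : T3 ^ j = rot 3 * (T0 ^ j)⁻¹ * (rot 3)⁻¹ := by
    unfold T3
    rw [conj_zpow, inv_zpow]
  rw [h1, h2]
  group

lemma finite_order (j : ℤ) :
    IsOfFinOrder (((T : S ≃ₜ S) : MapClass S) ^ j * ((rot 3 : S ≃ₜ S) : MapClass S)) := by
  rw [isOfFinOrder_iff_pow_eq_one]
  refine ⟨8, by norm_num, ?_⟩
  have h1 : ((T : S ≃ₜ S) : MapClass S) ^ j * ((rot 3 : S ≃ₜ S) : MapClass S) =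
      ((T ^ j * rot 3 : S ≃ₜ S) : MapClass S) := by
    rw [QuotientGroup.mk_mul, QuotientGroup.mk_zpow]
  rw [h1, conj_form, ← QuotientGroup.mk_pow, conj_pow, rot_pow]
  have h2 : ((8 : ℕ) : ZMod 8) * 3 = 0 := by decide
  rw [h2, rot_zero, mul_one, mul_inv_cancel]
  rfl

lemma isMultitwist : IsDehnMultitwist bdS 2 al ((T : S ≃ₜ S) : MapClass S) := by
  have h3 : rot 3 '' alpha 0 = alpha 3 := by rw [rot_alpha, zero_add]
  have hn : IsNontrivialCircle bdS (alpha 3) := by
    rw [← h3]
    exact nontrivial_image (rot 3) (rot_bd 3) nontrivial_alpha_zero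
  have hns : ¬ CirclesIsotopic (alpha 3) (alpha 0) := by
    rintro ⟨h, hh, hm⟩
    apply not_isotopic
    refine ⟨h⁻¹, (Homeo0 S).inv_mem hh, ?_⟩
    rw [← hm, ← Set.image_comp]
    have : ((h⁻¹ : S ≃ₜ S) ∘ h : S → S) = id := by
      funext x
      exact h.symm_apply_apply x
    rw [this, Set.image_id]
  refine ⟨by norm_num, ?_, ?_, ![T0, T3], ?_, ?_⟩
  · intro i
    fin_cases i
    · exact nontrivial_alpha_zero
    · exact hn
  · intro i j hij
    fin_cases i <;> fin_cases j
    · exact absurd rfl hij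
    · exact ⟨alpha_disjoint, not_isotopic⟩
    · exact ⟨alpha_disjoint.symm, hns⟩
    · exact absurd rfl hij
  · intro i
    fin_cases i
    · exact isDehnTwist_T0
    · change IsDehnTwist bdS (alpha 3) T3
      rw [← h3]
      exact twist_conj (twist_inv isDehnTwist_T0) (rot 3) (rot_bd 3)
  · simp [List.ofFn_succ, T]

lemma orbit_fills : Fills bdS (orbitCircles ((rot 3 : S ≃ₜ S) : MapClass S) al) := by
  apply fills_alpha
  intro i
  refine ⟨rot 3, rfl, ((3 * i.val : ℕ) : ℤ), 0, ?_⟩
  rw [zpow_natCast, rot_pow]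
  change alpha i = rot _ '' alpha 0
  rw [rot_alpha, zero_add]
  congr 1
  push_cast
  rw [ZMod.natCast_zmod_val]
  revert i
  decide

/-- On the sphere with eight holes there are a mapping class `f` and a Dehn multi-twist `t` such
that the circles `f ^ m (α i)` fill the surface and every `t ^ j * f` is of finite order, so that
the exceptional set is all of `ℤ`; in particular there is no constant `N` such that the exceptional
set is always finite and contained in a block of `N` consecutive integers. -/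
theorem result :
    (∃ (f t : MapClass S) (α : Fin 2 → Set S), IsDehnMultitwist bdS 2 α t ∧
      Fills bdS (orbitCircles f α) ∧ (∀ j : ℤ, IsOfFinOrder (t ^ j * f)) ∧
      exceptional bdS f t = univ) ∧
    ¬ ∃ N : ℕ, ∀ (f t : MapClass S) (n : ℕ) (α : Fin n → Set S), IsDehnMultitwist bdS n α t →
      Fills bdS (orbitCircles f α) →
      (exceptional bdS f t).Finite ∧ ∃ a : ℤ, exceptional bdS f t ⊆ Ico a (a + N) := by
  have hE : exceptional bdS ((rot 3 : S ≃ₜ S) : MapClass S) ((T : S ≃ₜ S) : MapClass S) = univ := by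
    rw [eq_univ_iff_forall]
    intro j hj
    exact hj.1 (finite_order j)
  refine ⟨⟨_, _, al, isMultitwist, orbit_fills, finite_order, hE⟩, ?_⟩
  rintro ⟨N, hN⟩
  obtain ⟨h1, -⟩ := hN _ _ 2 al isMultitwist orbit_fills
  rw [hE] at h1
  exact Set.infinite_univ h1

end Pool.Agent.Results.MP_d510f5_gt.NoUniformBlock
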