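import Pool.Agent.Helper57.MCG.Four

/-!
On the sphere with eight holes there is a product `t` of two Dehn twists of the same handedness, and
for every `K` an orientation-preserving mapping class `f`, such that the circles `f ^ m (α i)` fill
the surface and neither `f` nor `t ^ K * f` is pseudo-Anosov.
-/

set_option autoImplicit false

open Set Topology
open Pool.Agent.Helper57.MCG

namespace Pool.Agent.Results.MP_d510f5_gt.SameHandedUnbounded

/-- the two circles of the multi-twist -/
noncomputable def al : Fin 2 → Set S := ![alpha 0, alpha 4]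

/-- the conjugate of `τ` by the rotation of the sphere by the angle `π` about the vertical axis;
if `τ` is a Dehn twist along `alpha 0`, then this is the Dehn twist of the same handedness along
`alpha 4` -/
noncomputable def opp (τ : S ≃ₜ S) : S ≃ₜ S := rot 4 * τ * (rot 4)⁻¹

/-- the representative of the mapping class `f` -/
noncomputable def fK (τ : S ≃ₜ S) (K : ℕ) : S ≃ₜ S := (opp τ ^ K)⁻¹ * halfTurn

lemma opp_T0 : opp T0 = T4 := rfl

lemma isDehnTwist_T4 : IsDehnTwist bdS (alpha 4) T4 := by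
  have h := twist_conj isDehnTwist_T0 (rot 4) (rot_bd 4)
  rw [rot_alpha, zero_add] at h
  exact h

lemma nontrivial_alpha (i : ZMod 8) : IsNontrivialCircle bdS (alpha i) := by
  have h := nontrivial_image (rot i) (rot_bd i) nontrivial_alpha_zero
  rw [rot_alpha, zero_add] at h
  exact h

lemma isMultitwist : IsDehnMultitwist bdS 2 al ((T0 * T4 : S ≃ₜ S) : MapClass S) := by
  have hns : ¬ CirclesIsotopic (alpha 4) (alpha 0) := by
    rintro ⟨h, hh, hm⟩
    exact not_isotopic4 ⟨h⁻¹, (Homeo0 S).inv_mem hh, image_inv hm⟩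
  refine ⟨by norm_num, ?_, ?_, ![T0, T4], ?_, ?_⟩
  · intro i
    fin_cases i
    · exact nontrivial_alpha 0
    · exact nontrivial_alpha 4
  · intro i j hij
    fin_cases i <;> fin_cases j
    · exact absurd rfl hij
    · exact ⟨alpha_disjoint4, not_isotopic4⟩
    · exact ⟨alpha_disjoint4.symm, hns⟩
    · exact absurd rfl hij
  · intro i
    fin_cases i
    · exact isDehnTwist_T0
    · exact isDehnTwist_T4
  · simp [List.ofFn_succ]

lemma orbit_fills (K : ℕ) : Fills bdS (orbitCircles ((fK T0 K : S ≃ₜ S) : MapClass S) al) := by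
  apply fills_four
  have h0 : ((fK T0 K : S ≃ₜ S) ^ (-1 : ℤ) : S ≃ₜ S) = halfTurn⁻¹ * T4 ^ K := by
    rw [zpow_neg_one, fK, mul_inv_rev, inv_inv, opp_T0]
  have hz : ∀ i : ZMod 8, (halfTurn⁻¹ : S ≃ₜ S) '' alpha i = alpha (2 - i) := fun i => by
    have := halfTurn_alpha (2 - i)
    rw [sub_sub_cancel] at this
    exact image_inv this
  intro i hi
  simp only [Finset.mem_insert, Finset.mem_singleton] at hi
  rcases hi with rfl | rfl | rfl | rfl
  · refine ⟨fK T0 K, rfl, 0, 0, ?_⟩
    rw [zpow_zero]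
    exact (Set.image_id _).symm
  · refine ⟨fK T0 K, rfl, -1, 0, ?_⟩
    rw [h0, image_comp_mul]
    change alpha 2 = _ '' (_ '' alpha 0)
    rw [image_pow' T4_alpha0, hz, sub_zero]
  · refine ⟨fK T0 K, rfl, 0, 1, ?_⟩
    rw [zpow_zero]
    exact (Set.image_id _).symm
  · refine ⟨fK T0 K, rfl, -1, 1, ?_⟩
    rw [h0, image_comp_mul]
    change alpha 6 = _ '' (_ '' alpha 4)
    rw [image_pow' T4_alpha4, hz]
    congr 1

lemma reducible_of_fix {g : MapClass S} {F : S ≃ₜ S} (hF : (F : MapClass S) = g) (i : ZMod 8)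
    (h : F '' alpha i = alpha i) : IsReducible bdS g := by
  refine ⟨{alpha i}, Set.singleton_nonempty _, Set.finite_singleton _, ?_, ?_, F, hF, ?_⟩
  · rintro c rfl
    exact nontrivial_alpha i
  · rintro c rfl d rfl hcd
    exact absurd rfl hcd
  · rintro c rfl
    rw [h]
    rfl

lemma reducible_zero (K : ℕ) : IsReducible bdS ((fK T0 K : S ≃ₜ S) : MapClass S) := by
  apply reducible_of_fix rfl 1
  unfold fK
  rw [image_comp_mul, halfTurn_alpha, show (2 - 1 : ZMod 8) = 1 by decide]
  exact image_inv (image_pow' T4_alpha1 K)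

lemma reducible_K (K : ℕ) : IsReducible bdS
    (((T0 * T4 : S ≃ₜ S) : MapClass S) ^ K * ((fK T0 K : S ≃ₜ S) : MapClass S)) := by
  have h1 : (T0 * T4) ^ K * fK T0 K = T0 ^ K * halfTurn := by
    unfold fK
    rw [commute_T4.mul_pow, opp_T0]
    group
  apply reducible_of_fix (F := T0 ^ K * halfTurn) _ 5
  · rw [image_comp_mul, halfTurn_alpha, show (2 - 5 : ZMod 8) = 5 by decide]
    exact image_pow' T0_alpha5 K
  · rw [← h1]
    rfl

/-- the multi-twist `t`: the class of `τ * opp τ` -/
noncomputable def tt (τ : S ≃ₜ S) : MapClass S := ((τ * opp τ : S ≃ₜ S) : MapClass S)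

/-- the mapping class `f`: the class of `(opp τ ^ K)⁻¹ * halfTurn` -/
noncomputable def ff (τ : S ≃ₜ S) (K : ℕ) : MapClass S := ((fK τ K : S ≃ₜ S) : MapClass S)

/-- the class `t ^ K * f` -/
noncomputable def tf (τ : S ≃ₜ S) (K : ℕ) : MapClass S := tt τ ^ K * ff τ K

/-- There is a Dehn twist `τ` along `alpha 0` such that, for the multi-twist
`t = τ * (rot 4 * τ * (rot 4)⁻¹)` and every `K`, the class `f` of
`(rot 4 * τ * (rot 4)⁻¹) ^ (-K) * halfTurn` has the property that the circles `f ^ m (α i)` fill, but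
`f` and `t ^ K * f` are reducible; so the exceptional set is in no block of `K` integers. -/
theorem result : ∃ τ : S ≃ₜ S, IsDehnTwist bdS (alpha 0) τ ∧ IsDehnTwist bdS (alpha 4) (opp τ) ∧
    IsDehnMultitwist bdS 2 al (tt τ) ∧
    ∀ K : ℕ, Fills bdS (orbitCircles (ff τ K) al) ∧
      IsReducible bdS (ff τ K) ∧ IsReducible bdS (tf τ K) ∧
      ¬ ∃ a : ℤ, exceptional bdS (ff τ K) (tt τ) ⊆ Ico a (a + K) := by
  refine ⟨T0, isDehnTwist_T0, isDehnTwist_T4, isMultitwist, fun K =>
    ⟨orbit_fills K, reducible_zero K, reducible_K K, ?_⟩⟩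
  rintro ⟨a, ha⟩
  have h0 : (0 : ℤ) ∈ exceptional bdS (ff T0 K) (tt T0) := by
    intro h
    apply h.2
    rw [zpow_zero, one_mul]
    exact reducible_zero K
  have hK : (K : ℤ) ∈ exceptional bdS (ff T0 K) (tt T0) := by
    intro h
    apply h.2
    rw [zpow_natCast]
    exact reducible_K K
  have h1 := ha h0
  have h2 := ha hK
  rw [mem_Ico] at h1 h2
  omega

end Pool.Agent.Results.MP_d510f5_gt.SameHandedUnbounded
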